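import Pool.Agent.H29.LG.Targets

/-!
# Row CFA (MP_c65535_nt): finitely many elements of the big fields lie in level fields
-/

set_option autoImplicit false

namespace Pool.Agent.H69.LG

open NumberField Height Finset Polynomial Pool.Agent.H24.RD Pool.Agent.H23.RDD Pool.Agent.H29.RQ
  Pool.Agent.H29.SX Pool.Agent.H29.LG

theorem pf_CFA (h : T_LVB) : T_CFA := by
  classical
  intro Γ F' _ r g γ hγg hdec s s' hs hs'
  have hγ0 : ∀ i, γ i ≠ 0 := by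
    intro i h
    have h1 := hγg i
    rw [h] at h1
    exact (g i).ne_zero (by rw [← h1]; rfl)
  have : Algebra.IsAlgebraic ℚ (AlgebraicClosure ℚ) := AlgebraicClosure.isAlgebraic ℚ
  have : Algebra.IsAlgebraic F' (AlgebraicClosure ℚ) := Algebra.IsAlgebraic.tower_top (K := ℚ) F'
  have hmono : ∀ N K N₁ K₁ : ℕ, 0 < N → 0 < K → N ∣ N₁ → K ∣ K₁ → K₁ ∣ N₁ → 0 < N₁ →
      Lv F' (AlgebraicClosure ℚ) γ N K ≤ Lv F' (AlgebraicClosure ℚ) γ N₁ K₁ := by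
    intro N K N₁ K₁ hN hK h1 h2 h3 h4
    exact (h F' (AlgebraicClosure ℚ) r γ hγ0 N K hN hK).2.2.2.2.2 N₁ K₁ h1 h2 h3 h4
  have hA : ∀ N₁ N₂ : ℕ, 0 < N₁ → 0 < N₂ →
      Lv F' (AlgebraicClosure ℚ) γ N₁ N₁ ≤ Lv F' (AlgebraicClosure ℚ) γ (N₁ * N₂) (N₁ * N₂) ∧
      Lv F' (AlgebraicClosure ℚ) γ N₂ N₂ ≤ Lv F' (AlgebraicClosure ℚ) γ (N₁ * N₂) (N₁ * N₂) :=
    fun N₁ N₂ h1 h2 => ⟨hmono _ _ _ _ h1 h1 (Dvd.intro _ rfl) (Dvd.intro _ rfl) dvd_rfl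
      (Nat.mul_pos h1 h2), hmono _ _ _ _ h2 h2 (Dvd.intro_left _ rfl) (Dvd.intro_left _ rfl)
      dvd_rfl (Nat.mul_pos h1 h2)⟩
  have hB : ∀ N₁ N₂ : ℕ, 0 < N₁ → 0 < N₂ →
      Lv F' (AlgebraicClosure ℚ) γ N₁ 1 ≤ Lv F' (AlgebraicClosure ℚ) γ (N₁ * N₂) 1 ∧
      Lv F' (AlgebraicClosure ℚ) γ N₂ 1 ≤ Lv F' (AlgebraicClosure ℚ) γ (N₁ * N₂) 1 :=
    fun N₁ N₂ h1 h2 => ⟨hmono _ _ _ _ h1 one_pos (Dvd.intro _ rfl) dvd_rfl (one_dvd _)
      (Nat.mul_pos h1 h2), hmono _ _ _ _ h2 one_pos (Dvd.intro_left _ rfl) dvd_rfl (one_dvd _)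
      (Nat.mul_pos h1 h2)⟩
  have hs1 : ∀ z : AlgebraicClosure ℚ, z ∈ IntermediateField.adjoin ℚ
      {z : AlgebraicClosure ℚ | ∃ n : ℕ, 0 < n ∧ ∃ g ∈ Γ, z ^ n = (g : AlgebraicClosure ℚ)} →
      ∃ N : ℕ, 0 < N ∧ z ∈ Lv F' (AlgebraicClosure ℚ) γ N N := by
    intro z hz
    induction hz using IntermediateField.adjoin_induction with
    | mem x hx =>
      obtain ⟨n, hn, a, ha, hx⟩ := hx
      obtain ⟨x', ξ, j, hj, hξ, hae⟩ := hdec a ha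
      have hth : ∀ i, ∃ θ : AlgebraicClosure ℚ, θ ^ n = (g i : AlgebraicClosure ℚ) := fun i =>
        IsAlgClosed.exists_pow_nat_eq _ hn
      choose θ hθ using hth
      have hθ0 : ∀ i, θ i ≠ 0 := by
        intro i h
        have h1 := hθ i
        rw [h, zero_pow hn.ne'] at h1
        exact (g i).ne_zero h1.symm
      have hnj : 0 < n * j := Nat.mul_pos hn hj
      refine ⟨n * j, hnj, ?_⟩
      have hprod0 : ∏ i, θ i ^ x' i ≠ 0 :=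
        Finset.prod_ne_zero_iff.mpr fun i _ => zpow_ne_zero _ (hθ0 i)
      have hω : (x / ∏ i, θ i ^ x' i) ^ (n * j) = 1 := by
        have e1 : (∏ i, θ i ^ x' i) ^ n = ∏ i, (g i : AlgebraicClosure ℚ) ^ x' i := by
          rw [← Finset.prod_pow]
          refine Finset.prod_congr rfl fun i _ => ?_
          rw [← zpow_natCast, ← zpow_mul, mul_comm (x' i) (n : ℤ), zpow_mul, zpow_natCast, hθ i]
        have e2 : (a : AlgebraicClosure ℚ) =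
            (ξ : AlgebraicClosure ℚ) * ∏ i, (g i : AlgebraicClosure ℚ) ^ x' i := by
          rw [hae]
          push_cast
          rfl
        have e3 : ∏ i, (g i : AlgebraicClosure ℚ) ^ x' i ≠ 0 :=
          Finset.prod_ne_zero_iff.mpr fun i _ => zpow_ne_zero _ (g i).ne_zero
        rw [pow_mul, div_pow, hx, e1, e2, mul_div_assoc, div_self e3, mul_one]
        rw [← Units.val_pow_eq_pow_val, hξ, Units.val_one]
      have hmem1 : x / ∏ i, θ i ^ x' i ∈ Lv F' (AlgebraicClosure ℚ) γ (n * j) n :=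
        IntermediateField.subset_adjoin _ _ (Or.inl hω)
      have hmem2 : ∏ i, θ i ^ x' i ∈ Lv F' (AlgebraicClosure ℚ) γ (n * j) n := by
        refine prod_mem fun i _ => zpow_mem ?_ _
        refine IntermediateField.subset_adjoin _ _ (Or.inr ⟨i, ?_⟩)
        rw [hθ i, ← hγg i]
        rfl
      have e4 : x = (x / ∏ i, θ i ^ x' i) * ∏ i, θ i ^ x' i := by
        rw [div_mul_cancel₀ _ hprod0]
      refine hmono _ _ _ _ hnj hn dvd_rfl (Dvd.intro _ rfl) dvd_rfl hnj ?_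
      rw [e4]
      exact mul_mem hmem1 hmem2
    | algebraMap x =>
      exact ⟨1, one_pos, (Lv F' (AlgebraicClosure ℚ) γ 1 1).algebraMap_mem (algebraMap ℚ F' x)⟩
    | add x y hx hy ihx ihy =>
      obtain ⟨N₁, h1, h4⟩ := ihx
      obtain ⟨N₂, h5, h8⟩ := ihy
      exact ⟨N₁ * N₂, Nat.mul_pos h1 h5, add_mem ((hA N₁ N₂ h1 h5).1 h4) ((hA N₁ N₂ h1 h5).2 h8)⟩
    | inv x hx ihx =>
      obtain ⟨N₁, h1, h4⟩ := ihx
      exact ⟨N₁, h1, inv_mem h4⟩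
    | mul x y hx hy ihx ihy =>
      obtain ⟨N₁, h1, h4⟩ := ihx
      obtain ⟨N₂, h5, h8⟩ := ihy
      exact ⟨N₁ * N₂, Nat.mul_pos h1 h5, mul_mem ((hA N₁ N₂ h1 h5).1 h4) ((hA N₁ N₂ h1 h5).2 h8)⟩
  have hs2 : ∀ z : AlgebraicClosure ℚ, z ∈ IntermediateField.adjoin ℚ
      {z : AlgebraicClosure ℚ | ∃ n : ℕ, 0 < n ∧ z ^ n = 1} →
      ∃ N : ℕ, 0 < N ∧ z ∈ Lv F' (AlgebraicClosure ℚ) γ N 1 := by
    intro z hz
    induction hz using IntermediateField.adjoin_induction with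
    | mem x hx =>
      obtain ⟨n, hn, hx⟩ := hx
      exact ⟨n, hn, IntermediateField.subset_adjoin _ _ (Or.inl hx)⟩
    | algebraMap x =>
      exact ⟨1, one_pos, (Lv F' (AlgebraicClosure ℚ) γ 1 1).algebraMap_mem (algebraMap ℚ F' x)⟩
    | add x y hx hy ihx ihy =>
      obtain ⟨N₁, h1, h4⟩ := ihx
      obtain ⟨N₂, h5, h8⟩ := ihy
      exact ⟨N₁ * N₂, Nat.mul_pos h1 h5, add_mem ((hB N₁ N₂ h1 h5).1 h4) ((hB N₁ N₂ h1 h5).2 h8)⟩
    | inv x hx ihx =>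
      obtain ⟨N₁, h1, h4⟩ := ihx
      exact ⟨N₁, h1, inv_mem h4⟩
    | mul x y hx hy ihx ihy =>
      obtain ⟨N₁, h1, h4⟩ := ihx
      obtain ⟨N₂, h5, h8⟩ := ihy
      exact ⟨N₁ * N₂, Nat.mul_pos h1 h5, mul_mem ((hB N₁ N₂ h1 h5).1 h4) ((hB N₁ N₂ h1 h5).2 h8)⟩
  have k1 : ∃ N : ℕ, 0 < N ∧ ∀ z ∈ s, z ∈ Lv F' (AlgebraicClosure ℚ) γ N N := by
    induction s using Finset.induction_on with
    | empty => exact ⟨1, one_pos, fun z hz => absurd hz (Finset.notMem_empty z)⟩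
    | insert a s ha ih =>
      obtain ⟨N₁, h1, h4⟩ := ih fun z hz => hs z (Finset.mem_insert_of_mem hz)
      obtain ⟨N₂, h5, h8⟩ := hs1 a (hs a (Finset.mem_insert_self a s))
      refine ⟨N₁ * N₂, Nat.mul_pos h1 h5, fun z hz => ?_⟩
      rcases Finset.mem_insert.mp hz with rfl | hz
      · exact (hA N₁ N₂ h1 h5).2 h8
      · exact (hA N₁ N₂ h1 h5).1 (h4 z hz)
  have k2 : ∃ N : ℕ, 0 < N ∧ ∀ z ∈ s', z ∈ Lv F' (AlgebraicClosure ℚ) γ N 1 := by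
    induction s' using Finset.induction_on with
    | empty => exact ⟨1, one_pos, fun z hz => absurd hz (Finset.notMem_empty z)⟩
    | insert a s ha ih =>
      obtain ⟨N₁, h1, h4⟩ := ih fun z hz => hs' z (Finset.mem_insert_of_mem hz)
      obtain ⟨N₂, h5, h8⟩ := hs2 a (hs' a (Finset.mem_insert_self a s))
      refine ⟨N₁ * N₂, Nat.mul_pos h1 h5, fun z hz => ?_⟩
      rcases Finset.mem_insert.mp hz with rfl | hz
      · exact (hB N₁ N₂ h1 h5).2 h8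
      · exact (hB N₁ N₂ h1 h5).1 (h4 z hz)
  obtain ⟨N₁, h1, h2⟩ := k1
  obtain ⟨N₂, h3, h4⟩ := k2
  exact ⟨N₁ * N₂, Nat.mul_pos h1 h3, fun z hz => (hA N₁ N₂ h1 h3).1 (h2 z hz),
    fun z hz => (hB N₁ N₂ h1 h3).2 (h4 z hz)⟩

end Pool.Agent.H69.LG
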