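import Pool.Agent.H29.LG.Targets

/-!
# Row LOGL (MP_c65535_nt): numbers which are not reduced
-/

set_option autoImplicit false

namespace Pool.Agent.H69.LG

open NumberField Height Finset Polynomial Pool.Agent.H24.RD Pool.Agent.H23.RDD Pool.Agent.H29.RQ
  Pool.Agent.H29.SX Pool.Agent.H29.LG

theorem pf_LOGL (h1 : T_HB) (h2 : T_REDQ) (h3 : T_LOGR) : T_LOGL := by
  intro F Ω _ _ _ _ _ _ _ r γ hγ
  have : Algebra.IsAlgebraic ℚ Ω := Algebra.IsAlgebraic.trans ℚ F Ω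
  obtain ⟨c, C, hc, h⟩ := h3 F Ω r γ hγ
  obtain ⟨hb1, -, -, hb4, -, -, -⟩ := h1 Ω
  refine ⟨c, C, hc, fun N K d hN hK hd β g hβ hCj hg hn => ?_⟩
  obtain ⟨N₁, a, d₁, hN₁, hKN₁, ha, hd₁, had, hC1, hR1⟩ := h2 F Ω r γ hγ.1 N K d hN hK hd β hβ hCj
  have hg0 : g ≠ 0 := hg.1
  have hga : g ^ a ∈ Dv F Ω γ := by
    obtain ⟨_, n, hn0, x, hx⟩ := hg
    refine ⟨pow_ne_zero _ hg0, n, hn0, fun i => x i * a, ?_⟩
    rw [← pow_mul, mul_comm a n, pow_mul, hx, ← Finset.prod_pow]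
    refine Finset.prod_congr rfl fun i _ => ?_
    rw [zpow_mul, zpow_natCast]
  have hα : (β * g) ^ a ∉ Dv F Ω γ := by
    rintro ⟨_, n, hn0, x, hx⟩
    refine hn ⟨mul_ne_zero hβ hg0, a * n, Nat.mul_pos ha hn0, x, ?_⟩
    rw [pow_mul, hx]
  have hrep : RepD F Ω γ N₁ K d₁ ((β * g) ^ a) :=
    ⟨β ^ a, pow_ne_zero _ hβ, hC1, hR1, g ^ a, hga, mul_pow β g a⟩
  have h4 := h N₁ K d₁ hN₁ hKN₁ hd₁ _ hrep hα
  rw [hb4] at h4
  have hK0 : 0 < K := Nat.pos_of_dvd_of_pos hK hN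
  have hK1 : (1 : ℝ) ≤ K := by exact_mod_cast hK0
  have hd1 : (1 : ℝ) ≤ d₁ := by exact_mod_cast hd₁
  have ha1 : (1 : ℝ) ≤ a := by exact_mod_cast ha
  have hdd : (a : ℝ) * d₁ ≤ d := by exact_mod_cast had
  have hd1d : (d₁ : ℝ) ≤ d := by nlinarith
  have hx := hb1 (β * g)
  have e1 : (1 : ℝ) ≤ 3 * d₁ * K := by nlinarith
  have e2 : 3 * (d₁ : ℝ) * K ≤ 3 * d * K := by nlinarith
  have e3 : 0 ≤ Real.log (3 * d₁ * K) := Real.log_nonneg e1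
  have e4 : Real.log (3 * d₁ * K) ≤ Real.log (3 * d * K) := Real.log_le_log (by linarith) e2
  have e5 : Real.log (3 * d₁ * K) ^ C ≤ Real.log (3 * d * K) ^ C := pow_le_pow_left₀ e3 e4 C
  have e6 : 0 ≤ Real.log (3 * d₁ * K) ^ C := pow_nonneg e3 C
  calc c ≤ (a : ℝ) * absLogHeight₁ (β * g) * d₁ * Real.log (3 * d₁ * K) ^ C := h4
    _ = absLogHeight₁ (β * g) * (a * d₁) * Real.log (3 * d₁ * K) ^ C := by ring
    _ ≤ absLogHeight₁ (β * g) * d * Real.log (3 * d₁ * K) ^ C :=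
      mul_le_mul_of_nonneg_right (mul_le_mul_of_nonneg_left hdd hx) e6
    _ ≤ absLogHeight₁ (β * g) * d * Real.log (3 * d * K) ^ C :=
      mul_le_mul_of_nonneg_left e5 (mul_nonneg hx (by positivity))

end Pool.Agent.H69.LG
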